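import Pool.Agent.H21.Ref4

set_option autoImplicit false

open MeasureTheory Filter Set Topology
open scoped Real ENNReal

namespace Pool.Agent.Results.MP_7fabd3_an.Counter

/-- the finite gap set -/
def gapSet {l : ℕ} (α β : Fin (l + 1) → ℝ) : Set ℝ := ⋃ j, Icc (α j) (β j)

/-- the function `G_γ` on the upper half plane (principal square roots of each factor) -/
noncomputable def green {l : ℕ} (α β : Fin (l + 1) → ℝ) (γ : Fin l → ℝ) (z : ℂ) : ℂ :=
  -(∏ j, (z - γ j)) / ∏ j, ((z - α j) ^ (1 / 2 : ℂ) * (z - β j) ^ (1 / 2 : ℂ))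

/-- the reflectionless measure `π⁻¹ Im G_γ(x + i0) dx` on the finite gap set -/
noncomputable def reflMeasure {l : ℕ} (α β : Fin (l + 1) → ℝ) (γ : Fin l → ℝ) : Measure ℝ :=
  (volume.restrict (gapSet α β)).withDensity fun x => ENNReal.ofReal
    (π⁻¹ * limUnder (𝓝[>] (0 : ℝ)) fun ε : ℝ => (green α β γ (x + ε * Complex.I)).im)

/-- minus the logarithmic energy -/
noncomputable def logInt (ρ : Measure ℝ) : ℝ := ∫ p, Real.log |p.1 - p.2| ∂(ρ.prod ρ)

/-- probability measures on `K` of finite logarithmic energy -/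
def FiniteEnergy (K : Set ℝ) (ρ : Measure ℝ) : Prop :=
  IsProbabilityMeasure ρ ∧ ρ Kᶜ = 0 ∧ (∀ x, ρ {x} = 0) ∧
    Integrable (fun p : ℝ × ℝ => Real.log |p.1 - p.2|) (ρ.prod ρ)

/-- the equilibrium measure: the minimiser of the logarithmic energy -/
def IsEquilibrium (K : Set ℝ) (ν : Measure ℝ) : Prop :=
  FiniteEnergy K ν ∧ ∀ ρ, FiniteEnergy K ρ → logInt ρ ≤ logInt ν

/-- `S(μ)`, with `ν` the equilibrium measure -/
noncomputable def szego (μ ν : Measure ℝ) : ℝ :=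
  Real.exp (∫ x, Real.log ((μ.rnDeriv ν x).toReal) ∂ν)

/-- the Widom factor, with `cap = exp (logInt ν)` -/
noncomputable def widom (μ ν : Measure ℝ) (n : ℕ) : ℝ :=
  (⨅ P : {P : Polynomial ℝ // P.Monic ∧ P.natDegree = n}, √(∫ x, (P.1.eval x) ^ 2 ∂μ)) /
    Real.exp (logInt ν) ^ n

open Pool.Agent.H21.Ref

theorem result : ∃ (l : ℕ) (α β : Fin (l + 1) → ℝ) (γ : Fin l → ℝ) (ν : Measure ℝ) (n : ℕ),
    (∀ j, α j < β j) ∧ (∀ j : Fin l, β j.castSucc < α j.succ) ∧
    (∀ j : Fin l, γ j ∈ Icc (β j.castSucc) (α j.succ)) ∧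
    IsEquilibrium (gapSet α β) ν ∧ IsProbabilityMeasure (reflMeasure α β γ) ∧
    Integrable (fun x => Real.log (((reflMeasure α β γ).rnDeriv ν x).toReal)) ν ∧ 1 ≤ n ∧
    widom (reflMeasure α β γ) ν n ^ 2 < 2 * szego (reflMeasure α β γ) ν := by
  have hK : gapSet ![-5, -3, 4] ![-4, 3, 5] = K0 := by
    ext x
    simp [gapSet, K0, Fin.exists_fin_succ, or_assoc]
  have hG : ∀ z, green ![-5, -3, 4] ![-4, 3, 5] ![-√15, √15] z = GG (√15) z := by
    intro z
    rw [green, GG, Fin.prod_univ_two]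
    congr 1
    exact Fin.prod_univ_three _
  have hμ : reflMeasure ![-5, -3, 4] ![-4, 3, 5] ![-√15, √15] = H21.Ref.refl 15 := by
    rw [reflMeasure, hK, H21.Ref.refl]
    refine withDensity_congr_ae ?_
    filter_upwards [GG_ae] with x hx
    simp only [hG]
    rw [hx]
  have h3 : (3 : ℝ) ≤ √15 := Real.le_sqrt_of_sq_le (by norm_num)
  have h4 : √15 ≤ (4 : ℝ) := Real.sqrt_le_iff.2 ⟨by norm_num, by norm_num⟩
  have hE : logInt (H21.Ref.refl (25 / 2)) = Real.log 36 / 4 := (cross _ (refl_K0 _)).2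
  refine ⟨2, ![-5, -3, 4], ![-4, 3, 5], ![-√15, √15], H21.Ref.refl (25 / 2), 1, ?_, ?_, ?_, ?_, ?_, ?_,
    le_rfl, ?_⟩
  · intro j
    fin_cases j <;> simp <;> norm_num
  · intro j
    fin_cases j <;> simp <;> norm_num
  · intro j
    fin_cases j
    · simp [h3, h4]
    · simp [h3, h4]
  · rw [hK]
    refine ⟨⟨inferInstance, refl_K0 _, fun x => measure_singleton x, (cross _ (refl_K0 _)).1⟩, ?_⟩
    rintro ρ ⟨a1, a2, a3, a4⟩
    have : NullSingletonClass ρ := ⟨a3⟩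
    rw [hE]
    exact maximal ρ a2 a4
  · rw [hμ]
    infer_instance
  · rw [hμ]
    exact Pool.Agent.H21.Ref.szego.1
  · rw [hμ, szego, Pool.Agent.H21.Ref.szego.2, widom, hE, pow_one, div_pow, ← Real.exp_nat_mul]
    have a1 : Real.exp ((2 : ℕ) * (Real.log 36 / 4)) = 6 := by
      rw [show (36 : ℝ) = 6 ^ 2 by norm_num, Real.log_pow,
        show ((2 : ℕ) : ℝ) * (((2 : ℕ) : ℝ) * Real.log 6 / 4) = Real.log 6 by push_cast; ring,
        Real.exp_log (by norm_num)]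
    have a2 : (⨅ P : {P : Polynomial ℝ // P.Monic ∧ P.natDegree = 1},
        √(∫ x, (P.1.eval x) ^ 2 ∂(H21.Ref.refl 15))) ≤ √10 := by
      refine (ciInf_le ⟨0, ?_⟩ ⟨Polynomial.X, Polynomial.monic_X, Polynomial.natDegree_X⟩).trans ?_
      · rintro _ ⟨P, rfl⟩
        exact Real.sqrt_nonneg _
      · simp only [Polynomial.eval_X, mom2, le_refl]
    have a3 := pow_le_pow_left₀ (Real.iInf_nonneg fun _ => Real.sqrt_nonneg _) a2 2
    rw [Real.sq_sqrt (by norm_num)] at a3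
    have a4 : 5 / 6 < Real.exp (Real.log (27 / 32) / 2) := by
      refine lt_of_pow_lt_pow_left₀ 2 (Real.exp_pos _).le ?_
      rw [← Real.exp_nat_mul, show ((2 : ℕ) : ℝ) * (Real.log (27 / 32) / 2) = Real.log (27 / 32) by
        push_cast; ring, Real.exp_log (by norm_num)]
      norm_num
    rw [a1]
    linarith

end Pool.Agent.Results.MP_7fabd3_an.Counter
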